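import Pool.Agent.LKT.Stmts

/-!
# LKT, row AFF: the brackets are continuous and affine in each vector
-/

set_option autoImplicit false

namespace Pool.Agent.LKT.H72

open Pool.Agent.LCK

theorem cont_coord (k : Fin 8) (j : Fin 3) : Continuous fun x : Fin 8 → E3 => x k j :=
  (EuclideanSpace.proj (𝕜 := ℝ) j).continuous.comp (continuous_apply k)

theorem cont_hom (k : Fin 8) (j : Fin 4) : Continuous fun x : Fin 8 → E3 => hom x k j := by
  fin_cases j
  · exact continuous_const
  · exact cont_coord k 0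
  · exact cont_coord k 1
  · exact cont_coord k 2

theorem cont_D (a b c d : Fin 8) : Continuous fun x : Fin 8 → E3 => D x a b c d := by
  unfold D d4
  refine Continuous.matrix_det ?_
  refine continuous_matrix ?_
  intro i j
  fin_cases i
  · exact cont_hom a j
  · exact cont_hom b j
  · exact cont_hom c j
  · exact cont_hom d j

theorem hom_update_ne (x : Fin 8 → E3) (k j : Fin 8) (y : E3) (h : j ≠ k) :
    hom (Function.update x k y) j = hom x j := by
  unfold hom
  rw [Function.update_of_ne h]

theorem hom_update_self (x : Fin 8 → E3) (k : Fin 8) (y : E3) :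
    hom (Function.update x k y) k = ![if k = 0 ∨ k = 7 then 0 else 1, y 0, y 1, y 2] := by
  unfold hom
  rw [Function.update_self]

theorem inner_formula (c1 c2 c3 : ℝ) (y : E3) :
    inner ℝ (!₂[c1, c2, c3] : E3) y = c1 * y 0 + c2 * y 1 + c3 * y 2 := by
  rw [PiLp.inner_apply, Fin.sum_univ_three]
  simp
  ring

/-- A determinant is affine in a row with a constant first entry. -/
theorem det_aff (M : E3 → Matrix (Fin 4) (Fin 4) ℝ) (r : Fin 4) (h : ℝ)
    (hr : ∀ y, M y r = ![h, y 0, y 1, y 2]) (hn : ∀ i, i ≠ r → ∀ y, M y i = M 0 i) :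
    ∃ (al : E3) (be : ℝ), ∀ y : E3, (M y).det = inner ℝ al y + be := by
  obtain ⟨C, hC⟩ : ∃ C : Fin 4 → ℝ, ∀ j, C j = (-1) ^ ((r : ℕ) + (j : ℕ)) *
      ((M 0).submatrix r.succAbove j.succAbove).det := ⟨_, fun _ => rfl⟩
  have key : ∀ y, (M y).det = h * C 0 + y 0 * C 1 + y 1 * C 2 + y 2 * C 3 := by
    intro y
    rw [Matrix.det_succ_row (M y) r]
    have h1 : ∀ j : Fin 4, (-1 : ℝ) ^ ((r : ℕ) + (j : ℕ)) * M y r j *
        ((M y).submatrix r.succAbove j.succAbove).det = M y r j * C j := by
      intro j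
      have h2 : (M y).submatrix r.succAbove j.succAbove =
          (M 0).submatrix r.succAbove j.succAbove := by
        ext i l
        rw [Matrix.submatrix_apply, Matrix.submatrix_apply, hn _ (Fin.succAbove_ne r i)]
      rw [h2, hC j]
      ring
    rw [Finset.sum_congr rfl (fun j _ => h1 j), Fin.sum_univ_four, hr y]
    rfl
  refine ⟨!₂[C 1, C 2, C 3], h * C 0, fun y => ?_⟩
  rw [key, inner_formula]
  ring

theorem D_aff (a b c d : Fin 8) (hab : a ≠ b) (hac : a ≠ c) (had : a ≠ d) (hbc : b ≠ c)
    (hbd : b ≠ d) (hcd : c ≠ d) (x : Fin 8 → E3) (k : Fin 8) :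
    ∃ (al : E3) (be : ℝ), ∀ y : E3, D (Function.update x k y) a b c d = inner ℝ al y + be := by
  unfold D d4
  by_cases ha : a = k
  · subst ha
    refine det_aff _ 0 _ (fun y => hom_update_self x a y) ?_
    intro i hi y
    fin_cases i
    · exact absurd rfl hi
    · exact (hom_update_ne x a b y hab.symm).trans (hom_update_ne x a b 0 hab.symm).symm
    · exact (hom_update_ne x a c y hac.symm).trans (hom_update_ne x a c 0 hac.symm).symm
    · exact (hom_update_ne x a d y had.symm).trans (hom_update_ne x a d 0 had.symm).symm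
  by_cases hb : b = k
  · subst hb
    refine det_aff _ 1 _ (fun y => hom_update_self x b y) ?_
    intro i hi y
    fin_cases i
    · exact (hom_update_ne x b a y hab).trans (hom_update_ne x b a 0 hab).symm
    · exact absurd rfl hi
    · exact (hom_update_ne x b c y hbc.symm).trans (hom_update_ne x b c 0 hbc.symm).symm
    · exact (hom_update_ne x b d y hbd.symm).trans (hom_update_ne x b d 0 hbd.symm).symm
  by_cases hc : c = k
  · subst hc
    refine det_aff _ 2 _ (fun y => hom_update_self x c y) ?_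
    intro i hi y
    fin_cases i
    · exact (hom_update_ne x c a y hac).trans (hom_update_ne x c a 0 hac).symm
    · exact (hom_update_ne x c b y hbc).trans (hom_update_ne x c b 0 hbc).symm
    · exact absurd rfl hi
    · exact (hom_update_ne x c d y hcd.symm).trans (hom_update_ne x c d 0 hcd.symm).symm
  by_cases hd : d = k
  · subst hd
    refine det_aff _ 3 _ (fun y => hom_update_self x d y) ?_
    intro i hi y
    fin_cases i
    · exact (hom_update_ne x d a y had).trans (hom_update_ne x d a 0 had).symm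
    · exact (hom_update_ne x d b y hbd).trans (hom_update_ne x d b 0 hbd).symm
    · exact (hom_update_ne x d c y hcd).trans (hom_update_ne x d c 0 hcd).symm
    · exact absurd rfl hi
  refine ⟨0, Matrix.det (Matrix.of ![hom x a, hom x b, hom x c, hom x d]), fun y => ?_⟩
  rw [hom_update_ne x k a y ha, hom_update_ne x k b y hb, hom_update_ne x k c y hc,
    hom_update_ne x k d y hd, inner_zero_left, zero_add]

theorem tb_ne : ∀ i < 59, (tb i).1 ≠ (tb i).2.1 ∧ (tb i).1 ≠ (tb i).2.2.1 ∧
    (tb i).1 ≠ (tb i).2.2.2.1 ∧ (tb i).2.1 ≠ (tb i).2.2.1 ∧ (tb i).2.1 ≠ (tb i).2.2.2.1 ∧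
    (tb i).2.2.1 ≠ (tb i).2.2.2.1 := by
  decide

theorem aff : AffStmt := by
  refine ⟨fun i => ?_, fun i hi x k => ?_⟩
  · unfold F
    exact continuous_const.mul (cont_D _ _ _ _)
  · obtain ⟨h1, h2, h3, h4, h5, h6⟩ := tb_ne i hi
    obtain ⟨al, be, h⟩ := D_aff _ _ _ _ h1 h2 h3 h4 h5 h6 x k
    refine ⟨((tb i).2.2.2.2 : ℝ) • al, ((tb i).2.2.2.2 : ℝ) * be, fun y => ?_⟩
    unfold F
    rw [h y, real_inner_smul_left]
    ring

end Pool.Agent.LKT.H72
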