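import Mathlib

/-!
# Reach of five unit links in the class 6_2 (MP_e0fe99_lc)

Four Radon relations between six consecutive vertices with unit distances give
`‖v6 - v1‖ ≤ √5`.
-/

set_option autoImplicit false

namespace Pool.Agent.LKT.H72

variable {V : Type*} [NormedAddCommGroup V] [InnerProductSpace ℝ V]

/-- The half lemma: either the distance is at most two, or an angle is not obtuse. -/
theorem reach_half (v1 v2 v3 v4 v5 v6 : V)
    (h12 : ‖v1 - v2‖ = 1) (h23 : ‖v3 - v2‖ = 1) (h34 : ‖v4 - v3‖ = 1) (h56 : ‖v6 - v5‖ = 1)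
    (d24 : v2 ≠ v4)
    (hr : ∃ α β τ : ℝ, 0 ≤ α ∧ 0 ≤ β ∧ α + β ≤ 1 ∧ 0 ≤ τ ∧ τ ≤ 1 ∧
      v5 + τ • (v6 - v5) = v2 + α • (v1 - v2) + β • (v3 - v2))
    (hp5 : ∃ s e4 e5 : ℝ, 0 ≤ s ∧ s ≤ 1 ∧ 0 ≤ e4 ∧ 0 ≤ e5 ∧ e4 + e5 ≤ 1 ∧
      v2 + s • (v1 - v2) = v3 + e4 • (v4 - v3) + e5 • (v5 - v3)) :
    ‖v6 - v1‖ ≤ 2 ∨ 0 ≤ inner ℝ (v1 - v2) (v3 - v2) := by
  obtain ⟨α, β, τ, hα, hβ, hab, hτ, hτ1, hr⟩ := hr
  obtain ⟨s, e4, e5, hs, -, he4, he5, hee, hp⟩ := hp5
  rcases eq_or_lt_of_le (show α ≤ 1 by linarith) with h1 | h1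
  · left
    have hβ0 : β = 0 := by linarith
    have h2 : v6 - v1 = (1 - τ) • (v6 - v5) := by
      rw [h1, hβ0, one_smul, zero_smul, add_zero] at hr
      have h3 : v1 = v5 + τ • (v6 - v5) := by rw [hr]; abel
      rw [h3, sub_smul, one_smul]; abel
    rw [h2, norm_smul, h56, mul_one, Real.norm_eq_abs, abs_of_nonneg (by linarith)]
    linarith
  · obtain ⟨t, ht⟩ : ∃ t, t = β / (1 - α) := ⟨_, rfl⟩
    have h1a : 0 < 1 - α := by linarith
    have ht0 : 0 ≤ t := by rw [ht]; positivity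
    have ht1 : t ≤ 1 := by rw [ht, div_le_one h1a]; linarith
    have hβt : β = (1 - α) * t := by rw [ht]; field_simp
    by_cases hc : t ≤ ‖v5 - (v2 + t • (v3 - v2))‖
    · left
      obtain ⟨y, hy⟩ : ∃ y, y = v2 + t • (v3 - v2) := ⟨_, rfl⟩
      rw [← hy] at hc
      have e1 : v6 - v1 = (1 - α) • (y - v1) + (1 - τ) • (v6 - v5) := by
        have e2 : v5 + τ • (v6 - v5) = v1 + (1 - α) • (y - v1) := by
          rw [hr, hy, hβt]; module
        have e3 : v6 = (v5 + τ • (v6 - v5)) + (1 - τ) • (v6 - v5) := by module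
        nth_rewrite 1 [e3]
        rw [e2]; abel
      have e4' : v5 - y = α • (v1 - y) - τ • (v6 - v5) := by
        have e2 : v5 + τ • (v6 - v5) = y + α • (v1 - y) := by
          rw [hr, hy, hβt]; module
        have e3 : v5 = (v5 + τ • (v6 - v5)) - τ • (v6 - v5) := by abel
        nth_rewrite 1 [e3]
        rw [e2]; abel
      have n1 : ‖v6 - v1‖ ≤ (1 - α) * ‖y - v1‖ + (1 - τ) := by
        rw [e1]
        refine (norm_add_le _ _).trans ?_
        rw [norm_smul, norm_smul, h56, mul_one, Real.norm_eq_abs, Real.norm_eq_abs,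
          abs_of_nonneg h1a.le, abs_of_nonneg (by linarith)]
      have n2 : ‖v5 - y‖ ≤ α * ‖y - v1‖ + τ := by
        rw [e4']
        refine (norm_sub_le _ _).trans ?_
        rw [norm_smul, norm_smul, h56, mul_one, Real.norm_eq_abs, Real.norm_eq_abs,
          abs_of_nonneg hα, abs_of_nonneg hτ, norm_sub_rev v1 y]
      have n3 : ‖y - v1‖ ≤ 1 + t := by
        have e5' : y - v1 = -(v1 - v2) + t • (v3 - v2) := by rw [hy]; abel
        rw [e5']
        refine (norm_add_le _ _).trans ?_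
        rw [norm_neg, h12, norm_smul, h23, mul_one, Real.norm_eq_abs, abs_of_nonneg ht0]
      nlinarith
    · right
      rw [not_le] at hc
      obtain ⟨w, hw⟩ : ∃ w, w = v5 - v2 := ⟨_, rfl⟩
      obtain ⟨a, ha⟩ : ∃ a, a = v3 - v2 := ⟨_, rfl⟩
      obtain ⟨u, hu⟩ : ∃ u, u = v4 - v2 := ⟨_, rfl⟩
      obtain ⟨n, hn⟩ : ∃ n, n = v1 - v2 := ⟨_, rfl⟩
      have hc1 : ‖w - t • a‖ < t := by
        have : v5 - (v2 + t • (v3 - v2)) = w - t • a := by rw [hw, ha]; abel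
        rwa [this] at hc
      have na : ‖a‖ = 1 := by rw [ha]; exact h23
      have haa : inner ℝ a a = 1 := by rw [real_inner_self_eq_norm_sq, na]; norm_num
      have hwa : 0 < inner ℝ w a := by
        have h3 : ‖w - t • a‖ ^ 2 < t ^ 2 := by
          have := norm_nonneg (w - t • a)
          nlinarith
        rw [@norm_sub_sq_real, norm_smul, na, mul_one, Real.norm_eq_abs, sq_abs,
          real_inner_smul_right] at h3
        have h4 : 0 < t * inner ℝ w a := by nlinarith [sq_nonneg ‖w‖]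
        exact (pos_iff_pos_of_mul_pos h4).1 (lt_of_le_of_ne ht0 (by rintro rfl; simp at h4))
      have hua : 0 < inner ℝ u a := by
        have h3 : ‖u - a‖ = 1 := by
          have : u - a = v4 - v3 := by rw [hu, ha]; abel
          rw [this]; exact h34
        have h4 : ‖u - a‖ ^ 2 = 1 := by rw [h3]; norm_num
        rw [@norm_sub_sq_real, na] at h4
        have h5 : 0 < ‖u‖ := by
          rw [norm_pos_iff, hu, sub_ne_zero]
          exact d24.symm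
        nlinarith
      have key : s • n = (1 - e4 - e5) • a + e4 • u + e5 • w := by
        have e1 : s • n = (v2 + s • (v1 - v2)) - v2 := by rw [hn]; abel
        rw [e1, hp, ha, hu, hw]; module
      have k2 : s * inner ℝ n a = (1 - e4 - e5) * 1 + e4 * inner ℝ u a + e5 * inner ℝ w a := by
        rw [← real_inner_smul_left, key, inner_add_left, inner_add_left, real_inner_smul_left,
          real_inner_smul_left, real_inner_smul_left, haa]
      rw [← hn, ← ha]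
      by_contra hneg
      rw [not_le] at hneg
      have h6 : 0 ≤ (1 - e4 - e5) * 1 := by linarith
      have h7 : 0 ≤ e4 * inner ℝ u a := by positivity
      have h8 : 0 ≤ e5 * inner ℝ w a := by positivity
      have h9 : s * inner ℝ n a ≤ 0 := by nlinarith
      have z1 : (1 - e4 - e5) * 1 = 0 := by linarith
      have z2 : e4 * inner ℝ u a = 0 := by linarith
      have z3 : e5 * inner ℝ w a = 0 := by linarith
      have z4 : e4 = 0 := by
        rcases mul_eq_zero.1 z2 with h | h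
        · exact h
        · exact absurd h hua.ne'
      have z5 : e5 = 0 := by
        rcases mul_eq_zero.1 z3 with h | h
        · exact h
        · exact absurd h hwa.ne'
      rw [z4, z5] at z1
      norm_num at z1

/-- The reach of five unit links. -/
theorem reach_five (v1 v2 v3 v4 v5 v6 : V)
    (h12 : ‖v1 - v2‖ = 1) (h23 : ‖v3 - v2‖ = 1) (h34 : ‖v4 - v3‖ = 1) (h45 : ‖v4 - v5‖ = 1)
    (h56 : ‖v6 - v5‖ = 1) (d24 : v2 ≠ v4) (d35 : v3 ≠ v5)
    (hr : ∃ α β τ : ℝ, 0 ≤ α ∧ 0 ≤ β ∧ α + β ≤ 1 ∧ 0 ≤ τ ∧ τ ≤ 1 ∧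
      v5 + τ • (v6 - v5) = v2 + α • (v1 - v2) + β • (v3 - v2))
    (hp : ∃ σ α β : ℝ, 0 ≤ α ∧ 0 ≤ β ∧ α + β ≤ 1 ∧ 0 ≤ σ ∧ σ ≤ 1 ∧
      v2 + σ • (v1 - v2) = v5 + α • (v6 - v5) + β • (v4 - v5))
    (hp5 : ∃ s e4 e5 : ℝ, 0 ≤ s ∧ s ≤ 1 ∧ 0 ≤ e4 ∧ 0 ≤ e5 ∧ e4 + e5 ≤ 1 ∧
      v2 + s • (v1 - v2) = v3 + e4 • (v4 - v3) + e5 • (v5 - v3))
    (hr2 : ∃ s e3 e2 : ℝ, 0 ≤ s ∧ s ≤ 1 ∧ 0 ≤ e3 ∧ 0 ≤ e2 ∧ e3 + e2 ≤ 1 ∧
      v5 + s • (v6 - v5) = v4 + e3 • (v3 - v4) + e2 • (v2 - v4)) :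
    ‖v6 - v1‖ ≤ Real.sqrt 5 := by
  have h25 : (2 : ℝ) ≤ Real.sqrt 5 := by
    rw [show (2 : ℝ) = Real.sqrt (2 ^ 2) by rw [Real.sqrt_sq (by norm_num)]]
    exact Real.sqrt_le_sqrt (by norm_num)
  rcases reach_half v1 v2 v3 v4 v5 v6 h12 h23 h34 h56 d24 hr hp5 with h | hna
  · exact h.trans h25
  have hp' : ∃ α β τ : ℝ, 0 ≤ α ∧ 0 ≤ β ∧ α + β ≤ 1 ∧ 0 ≤ τ ∧ τ ≤ 1 ∧
      v2 + τ • (v1 - v2) = v5 + α • (v6 - v5) + β • (v4 - v5) := by
    obtain ⟨σ, α, β, h1, h2, h3, h4, h5, h6⟩ := hp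
    exact ⟨α, β, σ, h1, h2, h3, h4, h5, h6⟩
  rcases reach_half v6 v5 v4 v3 v2 v1 h56 h45 (by rw [norm_sub_rev]; exact h34) h12
    d35.symm hp' hr2 with h | hmb
  · rw [norm_sub_rev]; exact h.trans h25
  obtain ⟨α, β, τ, hα, hβ, hab, hτ, hτ1, hr⟩ := hr
  obtain ⟨σ, α', β', hα', hβ', hab', hσ, hσ1, hp⟩ := hp
  obtain ⟨n, hn⟩ : ∃ n, n = v1 - v2 := ⟨_, rfl⟩
  obtain ⟨a, ha⟩ : ∃ a, a = v3 - v2 := ⟨_, rfl⟩
  obtain ⟨m, hm⟩ : ∃ m, m = v6 - v5 := ⟨_, rfl⟩
  obtain ⟨b, hb⟩ : ∃ b, b = v4 - v5 := ⟨_, rfl⟩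
  rw [← hn, ← ha] at hna
  rw [← hm, ← hb] at hmb
  rw [← hn, ← ha, ← hm] at hr
  rw [← hn, ← hb, ← hm] at hp
  have nn : inner ℝ n n = 1 := by
    rw [real_inner_self_eq_norm_sq, hn, h12]; norm_num
  have aa : inner ℝ a a = 1 := by
    rw [real_inner_self_eq_norm_sq, ha, h23]; norm_num
  have mm : inner ℝ m m = 1 := by
    rw [real_inner_self_eq_norm_sq, hm, h56]; norm_num
  have hD : v6 - v1 = β • a + (1 - τ) • m - (1 - α) • n := by
    have e1 : v6 - v1 = (v5 + τ • m) + (1 - τ) • m - (v2 + n) := by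
      rw [hm, hn]; module
    rw [e1, hr]; module
  have hw : β • a = (σ - α) • n + (τ - α') • m - β' • b := by
    have e1 : β • a = (v5 + τ • m) - v2 - α • n := by rw [hr]; abel
    have e2 : v5 = v2 + σ • n - α' • m - β' • b := by rw [hp]; abel
    rw [e1, e2]; module
  have ham : β * inner ℝ a m ≤ (σ - α) * inner ℝ n m + (τ - α') := by
    have e1 : β * inner ℝ a m =
        (σ - α) * inner ℝ n m + (τ - α') * 1 - β' * inner ℝ b m := by
      rw [← real_inner_smul_left, hw, inner_sub_left, inner_add_left, real_inner_smul_left,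
        real_inner_smul_left, real_inner_smul_left, mm]
    have e2 : 0 ≤ β' * inner ℝ b m := mul_nonneg hβ' (by rw [real_inner_comm]; exact hmb)
    linarith
  have hnu : -1 ≤ inner ℝ n m := by
    have h1 := abs_real_inner_le_norm n m
    rw [show ‖n‖ = 1 by rw [hn]; exact h12, show ‖m‖ = 1 by rw [hm]; exact h56, mul_one] at h1
    exact (abs_le.1 h1).1
  have hsq : ‖v6 - v1‖ ^ 2 = (1 - α) ^ 2 + β ^ 2 + (1 - τ) ^ 2 - 2 * (1 - α) * (β * inner ℝ n a)
      - 2 * (1 - α) * (1 - τ) * inner ℝ n m + 2 * (1 - τ) * (β * inner ℝ a m) := by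
    rw [← real_inner_self_eq_norm_sq, hD]
    simp only [inner_sub_left, inner_sub_right, inner_add_left, inner_add_right,
      real_inner_smul_left, real_inner_smul_right, nn, aa, mm]
    rw [real_inner_comm n a, real_inner_comm n m, real_inner_comm m a]
    ring
  have h1 : 0 ≤ (1 - α) * (β * inner ℝ n a) := by
    have : 0 ≤ 1 - α := by linarith
    positivity
  have h2 : (1 - τ) * (β * inner ℝ a m) ≤ (1 - τ) * ((σ - α) * inner ℝ n m + (τ - α')) :=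
    mul_le_mul_of_nonneg_left ham (by linarith)
  have h3 : 0 ≤ (1 - τ) * (1 - σ) * (inner ℝ n m + 1) :=
    mul_nonneg (mul_nonneg (by linarith) (by linarith)) (by linarith)
  have h4 : ‖v6 - v1‖ ^ 2 ≤ 5 := by
    rw [hsq]
    have h5 : (1 - α) ^ 2 ≤ 1 := by nlinarith
    have h6 : β ^ 2 ≤ 1 := by nlinarith
    have h7 : 0 ≤ (1 - τ) * α' := mul_nonneg (by linarith) hα'
    have h8 : (1 - τ) * (1 - σ) ≤ 1 := by nlinarith
    have h9 : 0 ≤ τ ^ 2 := sq_nonneg _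
    nlinarith
  exact Real.le_sqrt_of_sq_le h4

end Pool.Agent.LKT.H72
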