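import Pool.Agent.Helper27_LKT.CRM
import Pool.Agent.Helper72_LKT.Reach5

/-!
# Reach in the class 6_2 (MP_e0fe99_lc)

The signs of fourteen brackets of the six inner vertices give four Radon relations; these are
closed relations, so they pass to the closure, and give all the reach bounds there.
-/

set_option autoImplicit false

namespace Pool.Agent.LKT.H72

open Pool.Agent.LKT Pool.Agent.LCK

/-- The signs of the brackets of the six inner vertices used for the reach. -/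
def Sg (x : Fin 8 → E3) : Prop :=
  0 < D x 1 2 3 4 ∧ D x 1 2 3 5 < 0 ∧ 0 < D x 1 2 3 6 ∧ 0 < D x 1 2 4 5 ∧ D x 1 2 4 6 < 0 ∧
  0 < D x 1 2 5 6 ∧ 0 < D x 1 3 4 5 ∧ D x 1 3 5 6 < 0 ∧ 0 < D x 1 4 5 6 ∧ D x 2 3 4 5 < 0 ∧
  0 < D x 2 3 4 6 ∧ 0 < D x 2 3 5 6 ∧ D x 2 4 5 6 < 0 ∧ 0 < D x 3 4 5 6

/-- Link `q1 q2` meets the triangle `p1 p2 p3` (closed form). -/
def Prc (q1 q2 p1 p2 p3 : E3) : Prop :=
  ∃ s e f : ℝ, (0 ≤ s ∧ s ≤ 1 ∧ 0 ≤ e ∧ 0 ≤ f ∧ e + f ≤ 1) ∧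
    q1 + s • (q2 - q1) = p1 + e • (p2 - p1) + f • (p3 - p1)

theorem prc_of (p1 p2 p3 q1 q2 : E3) (A B C I J : ℝ) (hA : 0 < A) (hB : 0 < B) (hC : 0 < C)
    (hI : 0 < I) (hJ : 0 < J) (hs : A + B + C = I + J)
    (he : A • p1 + B • p2 + C • p3 = I • q1 + J • q2) : Prc q1 q2 p1 p2 p3 := by
  have hS : 0 < I + J := by linarith
  refine ⟨J / (I + J), B / (I + J), C / (I + J), ⟨by positivity, ?_, by positivity, by positivity,
    ?_⟩, ?_⟩
  · rw [div_le_one hS]; linarith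
  · rw [← add_div, div_le_one hS]; linarith
  · have h1 : (I + J) • (q1 + (J / (I + J)) • (q2 - q1)) =
        (I + J) • (p1 + (B / (I + J)) • (p2 - p1) + (C / (I + J)) • (p3 - p1)) := by
      have e1 : (I + J) • (q1 + (J / (I + J)) • (q2 - q1)) = I • q1 + J • q2 := by
        rw [smul_add, smul_smul, mul_div_cancel₀ _ hS.ne']
        module
      have e2 : (I + J) • (p1 + (B / (I + J)) • (p2 - p1) + (C / (I + J)) • (p3 - p1)) =
          A • p1 + B • p2 + C • p3 := by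
        rw [smul_add, smul_add, smul_smul, smul_smul, mul_div_cancel₀ _ hS.ne',
          mul_div_cancel₀ _ hS.ne', ← hs]
        module
      rw [e1, e2, he]
    exact smul_right_injective E3 hS.ne' h1

/-- The Cramer relation of five vertices. -/
theorem cram (x : Fin 8 → E3) (a b c i j : Fin 8) (ha : hom x a 0 = 1) (hb : hom x b 0 = 1)
    (hc : hom x c 0 = 1) (hi : hom x i 0 = 1) (hj : hom x j 0 = 1) :
    D x b c i j - D x a c i j + D x a b i j - D x a b c j + D x a b c i = 0 ∧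
    D x b c i j • x a - D x a c i j • x b + D x a b i j • x c - D x a b c j • x i
      + D x a b c i • x j = 0 := by
  have h := H27.crm.1 (hom x a) (hom x b) (hom x c) (hom x i) (hom x j)
  constructor
  · have h0 := h 0
    rw [ha, hb, hc, hi, hj] at h0
    simp only [mul_one] at h0
    exact h0
  · ext k
    have hk : ∀ m : Fin 8, hom x m k.succ = x m k := by
      intro m
      fin_cases k <;> rfl
    have h1 := h k.succ
    rw [hk, hk, hk, hk, hk] at h1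
    simp only [PiLp.add_apply, PiLp.sub_apply, PiLp.smul_apply, smul_eq_mul, PiLp.zero_apply]
    exact h1

/-- The four Radon relations. -/
def Rel (x : Fin 8 → E3) : Prop :=
  Prc (x 5) (x 6) (x 2) (x 1) (x 3) ∧ Prc (x 2) (x 1) (x 5) (x 6) (x 4) ∧
  Prc (x 2) (x 1) (x 3) (x 4) (x 5) ∧ Prc (x 5) (x 6) (x 4) (x 3) (x 2)

theorem rel_of (x : Fin 8 → E3) (h : Sg x) : Rel x := by
  obtain ⟨h1234, h1235, h1236, h1245, h1246, h1256, h1345, h1356, h1456, h2345, h2346, h2356,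
    h2456, h3456⟩ := h
  have c1 : hom x 1 0 = 1 := rfl
  have c2 : hom x 2 0 = 1 := rfl
  have c3 : hom x 3 0 = 1 := rfl
  have c4 : hom x 4 0 = 1 := rfl
  have c5 : hom x 5 0 = 1 := rfl
  have c6 : hom x 6 0 = 1 := rfl
  refine ⟨?_, ?_, ?_, ?_⟩
  · obtain ⟨e1, e2⟩ := cram x 1 2 3 5 6 c1 c2 c3 c5 c6
    refine prc_of _ _ _ _ _ (-D x 1 3 5 6) (D x 2 3 5 6) (D x 1 2 5 6) (D x 1 2 3 6)
      (-D x 1 2 3 5) (by linarith) h2356 h1256 h1236 (by linarith) (by linarith) ?_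
    exact sub_eq_zero.1 (Eq.trans (by module) e2)
  · obtain ⟨e1, e2⟩ := cram x 1 2 4 5 6 c1 c2 c4 c5 c6
    refine prc_of _ _ _ _ _ (-D x 1 2 4 6) (D x 1 2 4 5) (D x 1 2 5 6) (D x 1 4 5 6)
      (-D x 2 4 5 6) (by linarith) h1245 h1256 h1456 (by linarith) (by linarith) ?_
    exact sub_eq_zero.1 (Eq.trans (by module) e2)
  · obtain ⟨e1, e2⟩ := cram x 1 2 3 4 5 c1 c2 c3 c4 c5
    refine prc_of _ _ _ _ _ (D x 1 2 4 5) (-D x 1 2 3 5) (D x 1 2 3 4) (D x 1 3 4 5)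
      (-D x 2 3 4 5) h1245 (by linarith) h1234 h1345 (by linarith) (by linarith) ?_
    exact sub_eq_zero.1 (Eq.trans (by module) e2)
  · obtain ⟨e1, e2⟩ := cram x 2 3 4 5 6 c2 c3 c4 c5 c6
    refine prc_of _ _ _ _ _ (D x 2 3 5 6) (-D x 2 4 5 6) (D x 3 4 5 6) (D x 2 3 4 6)
      (-D x 2 3 4 5) h2356 (by linarith) h3456 h2346 (by linarith) (by linarith) ?_
    exact sub_eq_zero.1 (Eq.trans (by module) e2)

theorem prc_closed (q1 q2 p1 p2 p3 : Fin 8) :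
    IsClosed {x : Fin 8 → E3 | Prc (x q1) (x q2) (x p1) (x p2) (x p3)} := by
  let K : Set (ℝ × ℝ × ℝ) := Set.Icc 0 1 ×ˢ (Set.Icc 0 1 ×ˢ Set.Icc 0 1)
  have hK : IsCompact K := isCompact_Icc.prod (isCompact_Icc.prod isCompact_Icc)
  have : CompactSpace ↥K := isCompact_iff_compactSpace.1 hK
  let T : Set ((Fin 8 → E3) × ↥K) := {z | z.2.1.2.1 + z.2.1.2.2 ≤ 1 ∧
    z.1 q1 + z.2.1.1 • (z.1 q2 - z.1 q1) =
      z.1 p1 + z.2.1.2.1 • (z.1 p2 - z.1 p1) + z.2.1.2.2 • (z.1 p3 - z.1 p1)}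
  have hv : ∀ m : Fin 8, Continuous fun z : (Fin 8 → E3) × ↥K => z.1 m := fun m =>
    (continuous_apply m).comp continuous_fst
  have hk1 : Continuous fun z : (Fin 8 → E3) × ↥K => z.2.1.1 :=
    continuous_fst.comp (continuous_subtype_val.comp continuous_snd)
  have hk2 : Continuous fun z : (Fin 8 → E3) × ↥K => z.2.1.2.1 :=
    continuous_fst.comp (continuous_snd.comp (continuous_subtype_val.comp continuous_snd))
  have hk3 : Continuous fun z : (Fin 8 → E3) × ↥K => z.2.1.2.2 :=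
    continuous_snd.comp (continuous_snd.comp (continuous_subtype_val.comp continuous_snd))
  have hT : IsClosed T := by
    refine IsClosed.inter (isClosed_le (hk2.add hk3) continuous_const) (isClosed_eq ?_ ?_)
    · exact (hv q1).add (hk1.smul ((hv q2).sub (hv q1)))
    · exact ((hv p1).add (hk2.smul ((hv p2).sub (hv p1)))).add
        (hk3.smul ((hv p3).sub (hv p1)))
  have h := isClosedMap_fst_of_compactSpace (X := Fin 8 → E3) (Y := ↥K) T hT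
  have he : {x : Fin 8 → E3 | Prc (x q1) (x q2) (x p1) (x p2) (x p3)} = Prod.fst '' T := by
    ext x
    constructor
    · rintro ⟨s, e, f, ⟨h1, h2, h3, h4, h5⟩, h6⟩
      exact ⟨(x, ⟨(s, e, f), ⟨⟨h1, h2⟩, ⟨h3, by linarith⟩, ⟨h4, by linarith⟩⟩⟩), ⟨h5, h6⟩, rfl⟩
    · rintro ⟨⟨x', ⟨⟨s, e, f⟩, hk⟩⟩, ⟨h5, h6⟩, rfl⟩
      exact ⟨s, e, f, ⟨hk.1.1, hk.1.2, hk.2.1.1, hk.2.2.1, h5⟩, h6⟩
  rw [he]
  exact h

theorem rel_closed : IsClosed {x : Fin 8 → E3 | Rel x} :=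
  (prc_closed 5 6 2 1 3).inter ((prc_closed 2 1 5 6 4).inter
    ((prc_closed 2 1 3 4 5).inter (prc_closed 5 6 4 3 2)))

/-- A link of length one which meets a triangle with two unit sides at `p1`. -/
theorem two_of_base (q1 q2 p1 p2 p3 : E3) (h : Prc q1 q2 p1 p2 p3) (hq : ‖q2 - q1‖ = 1)
    (h2 : ‖p2 - p1‖ = 1) (h3 : ‖p3 - p1‖ = 1) : ‖q2 - p1‖ ≤ 2 := by
  obtain ⟨s, e, f, ⟨hs, hs1, he, hf, hef⟩, h⟩ := h
  have h1 : q2 - p1 = (1 - s) • (q2 - q1) + (e • (p2 - p1) + f • (p3 - p1)) := by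
    have e1 : q2 - p1 = (1 - s) • (q2 - q1) + ((q1 + s • (q2 - q1)) - p1) := by module
    rw [e1, h]; abel
  rw [h1]
  refine (norm_add_le _ _).trans ?_
  have n1 : ‖(1 - s) • (q2 - q1)‖ = 1 - s := by
    rw [norm_smul, hq, mul_one, Real.norm_eq_abs, abs_of_nonneg (by linarith)]
  have n2 : ‖e • (p2 - p1) + f • (p3 - p1)‖ ≤ e + f := by
    refine (norm_add_le _ _).trans ?_
    rw [norm_smul, norm_smul, h2, h3, mul_one, mul_one, Real.norm_eq_abs, Real.norm_eq_abs,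
      abs_of_nonneg he, abs_of_nonneg hf]
  linarith

/-- The same with the base at the second vertex. -/
theorem prc_rot {q1 q2 p1 p2 p3 : E3} (h : Prc q1 q2 p1 p2 p3) : Prc q1 q2 p2 p1 p3 := by
  obtain ⟨s, e, f, ⟨hs, hs1, he, hf, hef⟩, h⟩ := h
  refine ⟨s, 1 - e - f, f, ⟨hs, hs1, by linarith, hf, by linarith⟩, ?_⟩
  rw [h]; module

theorem two_links (a b c : E3) (h1 : ‖b - a‖ = 1) (h2 : ‖c - b‖ = 1) : ‖c - a‖ ≤ 2 := by
  have e : c - a = (c - b) + (b - a) := by abel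
  rw [e]
  refine (norm_add_le _ _).trans ?_
  rw [h1, h2]; norm_num

/-- The reach on the closure. -/
theorem rc4 (W : Set (Fin 8 → E3)) (hW : ∀ x ∈ W, Sg x) : ∀ x ∈ closure W,
    ‖x 2 - x 1‖ = 1 → ‖x 3 - x 2‖ = 1 → ‖x 4 - x 3‖ = 1 → ‖x 5 - x 4‖ = 1 → ‖x 6 - x 5‖ = 1 →
    x 2 ≠ x 4 → x 3 ≠ x 5 →
    ‖x 3 - x 1‖ ≤ 2 ∧ ‖x 4 - x 1‖ ≤ 2 ∧ ‖x 5 - x 1‖ ≤ 2 ∧ ‖x 6 - x 1‖ ≤ Real.sqrt 5 ∧
      ‖x 6 - x 2‖ ≤ 2 ∧ ‖x 6 - x 3‖ ≤ 2 ∧ ‖x 6 - x 4‖ ≤ 2 := by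
  intro x hx h21 h32 h43 h54 h65 d24 d35
  have hR : Rel x := by
    have h1 : closure W ⊆ {x : Fin 8 → E3 | Rel x} :=
      closure_minimal (fun y hy => rel_of y (hW y hy)) rel_closed
    exact h1 hx
  obtain ⟨hr, hp, hp5, hr2⟩ := hR
  have h12 : ‖x 1 - x 2‖ = 1 := by rw [norm_sub_rev]; exact h21
  have h34 : ‖x 3 - x 4‖ = 1 := by rw [norm_sub_rev]; exact h43
  have h45 : ‖x 4 - x 5‖ = 1 := by rw [norm_sub_rev]; exact h54
  refine ⟨two_links _ _ _ h21 h32, ?_, ?_, ?_, ?_, ?_, two_links _ _ _ h54 h65⟩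
  · rw [norm_sub_rev]
    exact two_of_base _ _ _ _ _ (prc_rot hp5) h12 h34 h54
  · rw [norm_sub_rev]
    exact two_of_base _ _ _ _ _ hp h12 h65 h45
  · refine reach_five (x 1) (x 2) (x 3) (x 4) (x 5) (x 6) h12 h32 h43 h45 h65 d24 d35 ?_ ?_ ?_ ?_
    · obtain ⟨s, e, f, ⟨h1, h2, h3, h4, h5⟩, h6⟩ := hr
      exact ⟨e, f, s, h3, h4, h5, h1, h2, h6⟩
    · obtain ⟨s, e, f, ⟨h1, h2, h3, h4, h5⟩, h6⟩ := hp
      exact ⟨s, e, f, h3, h4, h5, h1, h2, h6⟩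
    · obtain ⟨s, e, f, ⟨h1, h2, h3, h4, h5⟩, h6⟩ := hp5
      exact ⟨s, e, f, h1, h2, h3, h4, h5, h6⟩
    · obtain ⟨s, e, f, ⟨h1, h2, h3, h4, h5⟩, h6⟩ := hr2
      exact ⟨s, e, f, h1, h2, h3, h4, h5, h6⟩
  · exact two_of_base _ _ _ _ _ hr h65 h12 h32
  · exact two_of_base _ _ _ _ _ (prc_rot hr2) h65 h43 (by rw [norm_sub_rev]; exact h32)

end Pool.Agent.LKT.H72
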